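import Pool.Agent.H85.KW.VD

/-!
Extensions of locally compact groups with a compact space of components by compact groups.
-/

namespace Pool.Agent.H85.KW

open Filter Topology
open scoped Pointwise

universe u v

/-- An open subgroup of a group with a compact space of components has finite index. -/
theorem finite_quot (P : Type u) [Group P] [TopologicalSpace P] [IsTopologicalGroup P]
    [CompactSpace (ConnectedComponents P)] (L : Subgroup P) (hL : IsOpen (L : Set P)) :
    Finite (P ⧸ L) := by
  have hd : DiscreteTopology (P ⧸ L) := QuotientGroup.discreteTopology hL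
  have hclopen : IsClopen (L : Set P) := ⟨L.isClosed_of_isOpen hL, hL⟩
  have hcL := hclopen.connectedComponent_subset L.one_mem
  have hcc : ∀ x y : P, connectedComponent x = connectedComponent y → x⁻¹ * y ∈ L := by
    intro x y h0
    have hc : Continuous fun z : P => x⁻¹ * z := by fun_prop
    have h1 := hc.image_connectedComponent_subset x
    have h2 : x⁻¹ * y ∈ connectedComponent (x⁻¹ * x) :=
      h1 ⟨y, by rw [h0]; exact mem_connectedComponent, rfl⟩
    rw [inv_mul_cancel] at h2
    exact hcL h2
  let f : ConnectedComponents P → P ⧸ L :=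
    Quotient.lift (QuotientGroup.mk : P → P ⧸ L) (fun x y h => QuotientGroup.eq.2 (hcc x y h))
  have hf : Continuous f := Continuous.quotient_lift QuotientGroup.continuous_mk _
  have hfs : Function.Surjective f := by
    intro q
    obtain ⟨g, rfl⟩ := QuotientGroup.mk_surjective q
    exact ⟨(g : ConnectedComponents P), rfl⟩
  have hcomp : IsCompact (Set.univ : Set (P ⧸ L)) := by
    rw [← Set.range_eq_univ.2 hfs]
    exact isCompact_range hf
  exact Set.finite_univ_iff.1 (isCompact_iff_finite.1 hcomp)

/-- Compact extensions of groups with a compact space of components. -/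
theorem ext_compact (P : Type v) [Group P] [TopologicalSpace P] [IsTopologicalGroup P]
    [CompactSpace (ConnectedComponents P)] (G : Type u) [Group G] [TopologicalSpace G]
    [IsTopologicalGroup G] [T2Space G] [LocallyCompactSpace G] (f : G →* P)
    (hfo : IsOpenMap f) (hfs : Function.Surjective f)
    (hK : IsCompact (f.ker : Set G)) : CompactSpace (ConnectedComponents G) := by
  by_contra hn
  obtain ⟨L, hL, hinf⟩ := exists_open G hn
  have hfin : Finite (P ⧸ L.map f) := finite_quot P (L.map f) (by
    rw [Subgroup.coe_map]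
    exact hfo _ hL)
  have hd : DiscreteTopology (G ⧸ L) := QuotientGroup.discreteTopology hL
  -- representatives
  have hrep : ∀ q : P ⧸ L.map f, ∃ g : G, ((f g : P) : P ⧸ L.map f) = q := by
    intro q
    obtain ⟨p, rfl⟩ := QuotientGroup.mk_surjective q
    obtain ⟨g, rfl⟩ := hfs p
    exact ⟨g, rfl⟩
  choose r hr using hrep
  have hcomp : IsCompact ((⋃ q, {r q}) * (f.ker : Set G)) :=
    (isCompact_iUnion fun q => isCompact_singleton).mul hK
  have huniv : (Set.univ : Set (G ⧸ L)) =
      (QuotientGroup.mk : G → G ⧸ L) '' ((⋃ q, {r q}) * (f.ker : Set G)) := by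
    symm
    rw [Set.eq_univ_iff_forall]
    intro x
    obtain ⟨g, rfl⟩ := QuotientGroup.mk_surjective x
    have h1 := hr ((f g : P) : P ⧸ L.map f)
    rw [QuotientGroup.eq] at h1
    obtain ⟨l, hl, hl2⟩ := h1
    set s : G := r ((f g : P) : P ⧸ L.map f) with hs
    have h2 : s⁻¹ * g * l⁻¹ ∈ f.ker := by
      rw [MonoidHom.mem_ker, map_mul, map_mul, map_inv, map_inv, hl2]
      group
    refine ⟨s * (s⁻¹ * g * l⁻¹), Set.mul_mem_mul (Set.mem_iUnion.2 ⟨_, rfl⟩) h2, ?_⟩
    rw [QuotientGroup.eq]
    have h3 : (s * (s⁻¹ * g * l⁻¹))⁻¹ * g = l := by group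
    rw [h3]
    exact hl
  have hc2 : IsCompact (Set.univ : Set (G ⧸ L)) := by
    rw [huniv]
    exact hcomp.image QuotientGroup.continuous_mk
  have : Finite (G ⧸ L) := Set.finite_univ_iff.1 (isCompact_iff_finite.1 hc2)
  exact not_finite (G ⧸ L)

end Pool.Agent.H85.KW
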