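import Pool.Graph.R_seed8.R557.KO.Main

/-!
The identity component of a topological group acts on every compact normal subgroup by inner
automorphisms (after the library proof for connected groups).
-/

namespace Pool.Agent.H85.KW

open Filter Topology
open Pool.Agent.R557.KO

universe u

theorem key1 (G : Type u) [Group G] [TopologicalSpace G] [IsTopologicalGroup G]
    (N : Subgroup G) [N.Normal] [CompactSpace N] [T2Space N]
    (A : Type) [NormedRing A] [NormedAlgebra ℝ A] [FiniteDimensional ℝ A]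
    (π : N →* A) (hπ : Continuous π) (hn : ∀ n, ‖π n‖ ≤ 1) (g : G)
    (hgc : g ∈ connectedComponent (1 : G)) :
    ∃ n : N, ∀ m : N, π (MulAut.conjNormal g m) = π (n * m * n⁻¹) := by
  have _ : CompleteSpace A := FiniteDimensional.complete ℝ A
  obtain ⟨δ, hδ, hloc⟩ := s_LOC A (Set.range π) (isCompact_range hπ).isClosed ⟨1, map_one π⟩
    (by rintro _ ⟨a, rfl⟩ _ ⟨b, rfl⟩; exact ⟨a * b, map_mul π a b⟩)
    (by
      rintro _ ⟨a, rfl⟩
      refine ⟨π a⁻¹, ⟨_, rfl⟩, ?_, ?_⟩
      · rw [← map_mul, mul_inv_cancel, map_one]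
      · rw [← map_mul, inv_mul_cancel, map_one])
    (by rintro _ ⟨a, rfl⟩; exact hn a)
    (by
      intro W X hW
      obtain ⟨Y, h1, h2⟩ := s_AVG N A π hπ hn W X (fun n => hW _ ⟨n, rfl⟩ _ ⟨n⁻¹, rfl⟩
        (by rw [← map_mul, mul_inv_cancel, map_one]))
      exact ⟨Y, by rintro _ ⟨a, rfl⟩; exact h1 a, h2⟩)
  obtain ⟨η, hη, hηδ, hη1⟩ : ∃ η > 0, η < δ ∧ η < 1 :=
    ⟨min δ 1 / 2, by positivity,
      (half_lt_self (lt_min hδ one_pos)).trans_le (min_le_left _ _),
      (half_lt_self (lt_min hδ one_pos)).trans_le (min_le_right _ _)⟩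
  let Ω : Subgroup G :=
    { carrier := {g | ∃ n : N, ∀ m : N, π (MulAut.conjNormal g m) = π (n * m * n⁻¹)}
      one_mem' := ⟨1, fun m => by simp⟩
      mul_mem' := by
        rintro a b ⟨n, hn1⟩ ⟨n', hn2⟩
        refine ⟨n * n', fun m => ?_⟩
        have h1 : π (MulAut.conjNormal (a * b) m) =
            π (n * (MulAut.conjNormal b m) * n⁻¹) := by
          rw [map_mul, MulAut.mul_apply, hn1]
        rw [h1, map_mul, map_mul, hn2, ← map_mul, ← map_mul]
        congr 1
        group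
      inv_mem' := by
        rintro a ⟨n, hn1⟩
        refine ⟨n⁻¹, fun m => ?_⟩
        have h1 := hn1 (MulAut.conjNormal a⁻¹ m)
        have h2 : MulAut.conjNormal a (MulAut.conjNormal a⁻¹ m) = m := by
          rw [← MulAut.mul_apply, ← map_mul, mul_inv_cancel, map_one, MulAut.one_apply]
        rw [h2] at h1
        have h3 : π (n⁻¹ * m * n⁻¹⁻¹) = π n⁻¹ * π m * π n := by
          rw [map_mul, map_mul, inv_inv]
        rw [h3, h1, ← map_mul, ← map_mul]
        congr 1
        group }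
  have hΩ : (Ω : Set G) ∈ 𝓝 (1 : G) := by
    have hc : Continuous fun x : G × N => π (MulAut.conjNormal x.1 x.2) - π x.2 :=
      (hπ.comp (cont_conj N)).sub (hπ.comp continuous_snd)
    have hev : ∀ᶠ g in 𝓝 (1 : G), ∀ m ∈ (Set.univ : Set N),
        ‖π (MulAut.conjNormal g m) - π m‖ < η := by
      refine isCompact_univ.eventually_forall_of_forall_eventually fun m _ => ?_
      have h1 : Tendsto (fun x : G × N => ‖π (MulAut.conjNormal x.1 x.2) - π x.2‖)
          (𝓝 (1, m)) (𝓝 0) := by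
        have h2 := (hc.norm).tendsto ((1 : G), m)
        simpa using h2
      have h3 := h1.eventually_lt_const hη
      rw [nhds_prod_eq] at h3
      first
        | exact h3
        | simpa [nhds_prod_eq] using h3
    filter_upwards [hev] with g hg
    obtain ⟨T, hT1, hT2⟩ := s_INT N A π hπ hn (MulAut.conjNormal g)
      ((cont_conj N).comp (by fun_prop : Continuous fun m : N => (g, m))) η
      (fun m => (hg m (Set.mem_univ m)).le)
    obtain ⟨_, ⟨n, rfl⟩, c, hc1, hc2⟩ := hloc T (hT1.trans_lt hηδ)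
      (by rintro _ ⟨a, rfl⟩; exact ⟨_, ⟨_, rfl⟩, hT2 a⟩)
    refine ⟨n, fun m => ?_⟩
    have hlt : ‖1 - T‖ < 1 := by rw [norm_sub_rev]; exact hT1.trans_lt hη1
    obtain ⟨v, hv⟩ : ∃ v : Aˣ, (v : A) = T := ⟨Units.oneSub (1 - T) hlt, by simp⟩
    have h1 : T * (↑v⁻¹ * π n) = π n := by
      rw [← hv, ← mul_assoc, Units.mul_inv, one_mul]
    have h2 : π n * π m * c = π (MulAut.conjNormal g m) * π n * c := by
      have h3 := hT2 m
      rw [hc2] at h3
      have h4 := hc1 _ ⟨m, rfl⟩
      calc π n * π m * c = π n * (π m * c) := by rw [mul_assoc]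
        _ = π n * c * π m := by rw [h4, mul_assoc]
        _ = π (MulAut.conjNormal g m) * (π n * c) := h3
        _ = _ := by rw [mul_assoc]
    have h5 : c * (↑v⁻¹ * π n) = 1 := by
      have h6 : π n⁻¹ * π n = 1 := by rw [← map_mul, inv_mul_cancel, map_one]
      calc c * (↑v⁻¹ * π n) = π n⁻¹ * π n * c * (↑v⁻¹ * π n) := by rw [h6, one_mul]
        _ = π n⁻¹ * (π n * c * (↑v⁻¹ * π n)) := by noncomm_ring
        _ = 1 := by rw [← hc2, h1, h6]
    have h7 : π n * π m = π (MulAut.conjNormal g m) * π n := by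
      calc π n * π m = π n * π m * c * (↑v⁻¹ * π n) := by rw [mul_assoc _ c, h5, mul_one]
        _ = π (MulAut.conjNormal g m) * π n := by rw [h2, mul_assoc _ c, h5, mul_one]
    rw [map_mul, map_mul, h7, mul_assoc, ← map_mul π n, mul_inv_cancel, map_one, mul_one]
  have hopen : IsOpen (Ω : Set G) := Subgroup.isOpen_of_mem_nhds Ω hΩ
  have hclopen : IsClopen (Ω : Set G) := ⟨Ω.isClosed_of_isOpen hopen, hopen⟩
  have : g ∈ (Ω : Set G) := hclopen.connectedComponent_subset Ω.one_mem hgc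
  exact this

section

open scoped Matrix.Norms.L2Operator

/-- The identity component acts on a compact normal subgroup by inner automorphisms (Iwasawa). -/
theorem inner1 (G : Type u) [Group G] [TopologicalSpace G] [IsTopologicalGroup G]
    (N : Subgroup G) [N.Normal] [CompactSpace N] [T2Space N] (g : G)
    (hgc : g ∈ connectedComponent (1 : G)) :
    ∃ n : N, ∀ m : N, MulAut.conjNormal g m = n * m * n⁻¹ := by
  let ι : Type u := Σ r : ℕ, {ρ : N →* Matrix.unitaryGroup (Fin r) ℂ // Continuous ρ}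
  let F : ι → Set N := fun i => {n | ∀ m : N, i.2.1 (MulAut.conjNormal g m) = i.2.1 (n * m * n⁻¹)}
  have hF : ∀ i, IsClosed (F i) := by
    intro i
    have h2 : F i = ⋂ m : N, {n | i.2.1 (MulAut.conjNormal g m) = i.2.1 (n * m * n⁻¹)} := by
      ext n
      simp only [F, Set.mem_iInter]
      rfl
    rw [h2]
    refine isClosed_iInter fun m => isClosed_eq continuous_const (i.2.2.comp (by fun_prop))
  have hfin : ∀ s : Finset ι, (⋂ i ∈ s, F i).Nonempty := by
    intro s
    let f : Fin s.card → ι := fun j => (s.equivFin.symm j).1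
    let π : N →* (∀ j : Fin s.card, Matrix (Fin (f j).1) (Fin (f j).1) ℂ) :=
      MonoidHom.pi fun j => (Matrix.unitaryGroup (Fin (f j).1) ℂ).subtype.comp (f j).2.1
    have hπ : Continuous π := continuous_pi fun j => continuous_subtype_val.comp (f j).2.2
    have hn : ∀ n, ‖π n‖ ≤ 1 := fun n =>
      (pi_norm_le_iff_of_nonneg zero_le_one).2 fun j => norm_unitary_le ((f j).2.1 n)
    obtain ⟨n, hn1⟩ := key1 G N _ π hπ hn g hgc
    refine ⟨n, ?_⟩
    simp only [Set.mem_iInter]
    intro i hi m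
    have h3 := congrFun (hn1 m) (s.equivFin ⟨i, hi⟩)
    have h4 : f (s.equivFin ⟨i, hi⟩) = i := by simp [f]
    have h5 : ∀ j : ι, j = i → ((j.2.1 (MulAut.conjNormal g m) : Matrix.unitaryGroup _ ℂ) :
        Matrix (Fin j.1) (Fin j.1) ℂ) = (j.2.1 (n * m * n⁻¹) : Matrix.unitaryGroup _ ℂ) →
        i.2.1 (MulAut.conjNormal g m) = i.2.1 (n * m * n⁻¹) := by
      rintro j rfl h
      exact Subtype.ext h
    exact h5 _ h4 h3
  obtain ⟨n, hn⟩ := CompactSpace.iInter_nonempty hF hfin
  refine ⟨n, fun m => ?_⟩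
  by_contra hne
  obtain ⟨r, ρ, hρ, h6⟩ := pw N _ _ hne
  exact h6 ((Set.mem_iInter.1 hn ⟨r, ρ, hρ⟩) m)

end

end Pool.Agent.H85.KW
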