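import Mathlib

/-!
Permutational wreath products of the circle with a locally compact group: the finite-dimensional
representations are trivial on the torus.
-/

namespace Pool.Agent.H85.KW

open Filter Topology

universe u

set_option linter.unusedSectionVars false

noncomputable section

/-! ### matrices of finite order with large traces -/

theorem eq_one_of_trace {n : ℕ} (A : Matrix (Fin n) (Fin n) ℂ) (m : ℕ) (hm : 0 < m)
    (h1 : A ^ m = 1) (h2 : ∀ a : ℕ, (A ^ a).trace = n) : A = 1 := by
  set P : Matrix (Fin n) (Fin n) ℂ := (m : ℂ)⁻¹ • ∑ a ∈ Finset.range m, A ^ a with hP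
  have hm' : (m : ℂ) ≠ 0 := by exact_mod_cast hm.ne'
  have hAP : A * P = P := by
    rw [hP, mul_smul_comm, Finset.mul_sum]
    congr 1
    have h3 : ∀ a ∈ Finset.range m, A * A ^ a = A ^ (a + 1) := fun a _ => (pow_succ' A a).symm
    rw [Finset.sum_congr rfl h3]
    have h4 := Finset.sum_range_succ (fun a => A ^ a) m
    have h5 := Finset.sum_range_succ' (fun a => A ^ a) m
    rw [h4] at h5
    rw [h1, pow_zero] at h5
    exact (add_right_cancel h5).symm
  have hApP : ∀ a : ℕ, A ^ a * P = P := by
    intro a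
    induction a with
    | zero => rw [pow_zero, one_mul]
    | succ a ih => rw [pow_succ, mul_assoc, hAP, ih]
  have hPP : P * P = P := by
    have h3 : P * P = (m : ℂ)⁻¹ • ∑ a ∈ Finset.range m, A ^ a * P := by
      conv_lhs => rw [hP]
      rw [smul_mul_assoc, Finset.sum_mul]
    rw [h3, Finset.sum_congr rfl fun a _ => hApP a, Finset.sum_const, Finset.card_range,
      ← Nat.cast_smul_eq_nsmul ℂ, smul_smul, inv_mul_cancel₀ hm', one_smul]
  have htr : P.trace = n := by
    rw [hP, Matrix.trace_smul, Matrix.trace_sum, Finset.sum_congr rfl fun a _ => h2 a,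
      Finset.sum_const, Finset.card_range, nsmul_eq_mul, smul_eq_mul, ← mul_assoc,
      inv_mul_cancel₀ hm', one_mul]
  have hQ : IsIdempotentElem (1 - P) := by
    show (1 - P) * (1 - P) = 1 - P
    rw [sub_mul, mul_sub, mul_sub, hPP, one_mul, mul_one, one_mul, sub_self, sub_zero]
  have hQt : (1 - P).trace = 0 := by
    rw [Matrix.trace_sub, Matrix.trace_one, htr, Fintype.card_fin, sub_self]
  have hQ0 : Matrix.toLin' (1 - P) = 0 := by
    have h3 : IsIdempotentElem (Matrix.toLin' (1 - P)) := by
      show Matrix.toLin' (1 - P) * Matrix.toLin' (1 - P) = Matrix.toLin' (1 - P)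
      rw [Module.End.mul_eq_comp, ← Matrix.toLin'_mul, hQ.eq]
    apply LinearMap.IsIdempotentElem.eq_zero_of_trace_eq_zero h3
    rw [Matrix.trace_toLin'_eq]
    exact hQt
  have hP1 : P = 1 := by
    have h3 : (1 : Matrix (Fin n) (Fin n) ℂ) - P = 0 := by
      apply Matrix.toLin'.injective
      rw [hQ0, map_zero]
    exact (sub_eq_zero.1 h3).symm
  have h6 := hAP
  rw [hP1, mul_one] at h6
  exact h6

/-! ### the wreath product -/

/-- the torus with a coordinate for each pair of an index and a coset -/
abbrev Tor (P : Type u) [Group P] (U : Subgroup P) (ι : Type u) : Type u := ι × (P ⧸ U) → Circle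

/-- `P` permutes the coordinates of the torus -/
def act (P : Type u) [Group P] (U : Subgroup P) (ι : Type u) : P →* MulAut (Tor P U ι) where
  toFun p :=
    { toFun := fun k j => k (j.1, p⁻¹ • j.2)
      invFun := fun k j => k (j.1, p • j.2)
      left_inv := fun k => by funext j; simp
      right_inv := fun k => by funext j; simp
      map_mul' := fun k l => rfl }
  map_one' := by
    ext k j
    simp
  map_mul' p q := by
    ext k j
    simp [mul_smul]

theorem act_apply {P : Type u} [Group P] {U : Subgroup P} {ι : Type u} (p : P) (k : Tor P U ι)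
    (j : ι × (P ⧸ U)) : act P U ι p k j = k (j.1, p⁻¹ • j.2) := rfl

/-- the permutational wreath product of the circle group with `P` -/
def Wr (P : Type u) [Group P] (U : Subgroup P) (ι : Type u) : Type u :=
  SemidirectProduct (Tor P U ι) P (act P U ι)

namespace Wr

variable {P : Type u} [Group P] {U : Subgroup P} {ι : Type u}

instance : Group (Wr P U ι) := inferInstanceAs (Group (SemidirectProduct _ _ _))

/-- the two coordinates -/
def toP (g : Wr P U ι) : Tor P U ι × P := (SemidirectProduct.left g, SemidirectProduct.right g)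

/-- the bijection with the product -/
def equiv : Wr P U ι ≃ Tor P U ι × P where
  toFun := toP
  invFun x := (⟨x.1, x.2⟩ : SemidirectProduct _ _ _)
  left_inv _ := rfl
  right_inv _ := rfl

/-- the inclusion of the torus -/
def inl : Tor P U ι →* Wr P U ι := SemidirectProduct.inl

/-- the inclusion of `P` -/
def inr : P →* Wr P U ι := SemidirectProduct.inr

/-- the projection to `P` -/
def pr : Wr P U ι →* P := SemidirectProduct.rightHom

theorem toP_mul (g h : Wr P U ι) : toP (g * h) =
    ((toP g).1 * act P U ι (toP g).2 (toP h).1, (toP g).2 * (toP h).2) := rfl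

theorem toP_inv (g : Wr P U ι) : toP g⁻¹ =
    (act P U ι (toP g).2⁻¹ (toP g).1⁻¹, (toP g).2⁻¹) := rfl

theorem toP_inl (k : Tor P U ι) : toP (inl k : Wr P U ι) = (k, 1) := rfl

theorem toP_inr (p : P) : toP (inr p : Wr P U ι) = (1, p) := rfl

theorem pr_apply (g : Wr P U ι) : pr g = (toP g).2 := rfl

theorem conj_inl (p : P) (k : Tor P U ι) :
    inr p * inl k * (inr p)⁻¹ = (inl (act P U ι p k) : Wr P U ι) := by
  have h := SemidirectProduct.inl_aut (φ := act P U ι) p k
  rw [← map_inv]
  exact h.symm

theorem mem_ker (g : Wr P U ι) : g ∈ (pr : Wr P U ι →* P).ker ↔ ∃ k, inl k = g := by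
  rw [MonoidHom.mem_ker]
  constructor
  · intro h
    refine ⟨(toP g).1, ?_⟩
    apply equiv.injective
    show toP (inl (toP g).1) = toP g
    rw [toP_inl]
    ext : 1
    · rfl
    · rw [pr_apply] at h
      exact h.symm
  · rintro ⟨k, rfl⟩
    rfl

variable [TopologicalSpace P]

instance : TopologicalSpace (Wr P U ι) := TopologicalSpace.induced toP inferInstance

theorem cont_toP : Continuous (toP : Wr P U ι → Tor P U ι × P) := continuous_induced_dom

/-- the homeomorphism with the product -/
def homeo : Wr P U ι ≃ₜ Tor P U ι × P :=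
  equiv.toHomeomorphOfIsInducing ⟨rfl⟩

theorem cont_inl : Continuous (inl : Tor P U ι → Wr P U ι) := by
  rw [continuous_induced_rng]
  show Continuous fun k : Tor P U ι => (k, (1 : P))
  fun_prop

theorem cont_pr : Continuous (pr : Wr P U ι → P) := cont_toP.snd

theorem open_pr : IsOpenMap (pr : Wr P U ι → P) := by
  have h : IsOpenMap (Prod.snd ∘ (homeo : Wr P U ι ≃ₜ Tor P U ι × P)) :=
    isOpenMap_snd.comp homeo.isOpenMap
  exact h

theorem surj_pr : Function.Surjective (pr : Wr P U ι → P) := fun p => ⟨inr p, rfl⟩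

theorem ker_eq : ((pr : Wr P U ι →* P).ker : Set (Wr P U ι)) = Set.range inl := by
  ext g
  exact mem_ker g

theorem ker_compact : IsCompact ((pr : Wr P U ι →* P).ker : Set (Wr P U ι)) := by
  rw [ker_eq]
  exact isCompact_range cont_inl

theorem ker_connected : IsConnected ((pr : Wr P U ι →* P).ker : Set (Wr P U ι)) := by
  rw [ker_eq]
  exact isConnected_range cont_inl

variable [IsTopologicalGroup P]

theorem cont_act (hU : IsOpen (U : Set P)) :
    Continuous fun x : P × Tor P U ι => act P U ι x.1 x.2 := by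
  have hd : DiscreteTopology (P ⧸ U) := QuotientGroup.discreteTopology hU
  apply continuous_pi
  rintro ⟨i, y⟩
  show Continuous fun x : P × Tor P U ι => x.2 (i, x.1⁻¹ • y)
  have h1 : Continuous fun z : (P ⧸ U) × Tor P U ι => z.2 (i, z.1) := by
    rw [continuous_prod_of_discrete_left]
    intro a
    show Continuous fun b : Tor P U ι => b (i, a)
    fun_prop
  have h2 : Continuous fun p : P => p⁻¹ • y := by
    obtain ⟨g, rfl⟩ := QuotientGroup.mk_surjective y
    show Continuous fun p : P => ((p⁻¹ * g : P) : P ⧸ U)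
    exact QuotientGroup.continuous_mk.comp (by fun_prop)
  exact h1.comp ((h2.comp continuous_fst).prodMk continuous_snd)

theorem topGroup (hU : IsOpen (U : Set P)) : IsTopologicalGroup (Wr P U ι) where
  continuous_mul := by
    rw [continuous_induced_rng]
    show Continuous fun x : Wr P U ι × Wr P U ι =>
      ((toP x.1).1 * act P U ι (toP x.1).2 (toP x.2).1, (toP x.1).2 * (toP x.2).2)
    have h1 : Continuous fun x : Wr P U ι × Wr P U ι => toP x.1 := cont_toP.comp continuous_fst
    have h2 : Continuous fun x : Wr P U ι × Wr P U ι => toP x.2 := cont_toP.comp continuous_snd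
    exact (h1.fst.mul ((cont_act hU).comp (h1.snd.prodMk h2.fst))).prodMk (h1.snd.mul h2.snd)
  continuous_inv := by
    rw [continuous_induced_rng]
    show Continuous fun x : Wr P U ι => (act P U ι (toP x).2⁻¹ (toP x).1⁻¹, (toP x).2⁻¹)
    have h1 : Continuous fun x : Wr P U ι => toP x := cont_toP
    exact ((cont_act hU).comp (h1.snd.inv.prodMk h1.fst.inv)).prodMk h1.snd.inv

theorem t2 [T2Space P] : T2Space (Wr P U ι) := homeo.symm.t2Space

theorem locComp [LocallyCompactSpace P] : LocallyCompactSpace (Wr P U ι) :=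
  homeo.isClosedEmbedding.locallyCompactSpace

/-! ### representations are trivial on the torus -/

/-- the element with one coordinate `θ` -/
noncomputable def e (i : ι) (y : P ⧸ U) (θ : Circle) : Tor P U ι := by
  classical exact Pi.mulSingle (i, y) θ

theorem e_same (i : ι) (y : P ⧸ U) (θ : Circle) : e i y θ (i, y) = θ := by
  simp [e]

theorem e_ne (i : ι) (y : P ⧸ U) (θ : Circle) (j : ι × (P ⧸ U)) (h : j ≠ (i, y)) :
    e i y θ j = 1 := by
  simp [e, h]

theorem e_pow (i : ι) (y : P ⧸ U) (θ : Circle) (a : ℕ) : e i y θ ^ a = e i y (θ ^ a) := by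
  funext j
  by_cases h : j = (i, y)
  · subst h
    rw [Pi.pow_apply, e_same, e_same]
  · rw [Pi.pow_apply, e_ne _ _ _ _ h, e_ne _ _ _ _ h, one_pow]

theorem act_e (p : P) (i : ι) (y : P ⧸ U) (θ : Circle) :
    act P U ι p (e i y θ) = e i (p • y) θ := by
  funext j
  rw [act_apply]
  by_cases h : j = (i, p • y)
  · subst h
    rw [inv_smul_smul, e_same, e_same]
  · rw [e_ne _ _ _ _ h, e_ne]
    intro h2
    apply h
    rw [Prod.ext_iff] at h2
    obtain ⟨h3, h4⟩ := h2
    have h5 : p⁻¹ • j.2 = y := h4
    ext : 1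
    · exact h3
    · show j.2 = p • y
      rw [← h5, smul_inv_smul]

theorem e_tendsto (i : ι) (θ : Circle) :
    Tendsto (fun y : P ⧸ U => e (ι := ι) i y θ) cofinite (𝓝 1) := by
  rw [tendsto_pi_nhds]
  rintro ⟨i', y'⟩
  apply tendsto_const_nhds.congr'
  have h1 : ∀ᶠ y : P ⧸ U in cofinite, y ≠ y' := by
    rw [eventually_cofinite]
    simp
  filter_upwards [h1] with y hy
  rw [e_ne]
  · rfl
  · intro h2
    rw [Prod.ext_iff] at h2
    exact hy h2.2.symm

theorem rep_e_fin [Infinite (P ⧸ U)] {n : ℕ} (ρ : Wr P U ι →* GL (Fin n) ℂ)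
    (hρ : Continuous ρ) (i : ι) (y : P ⧸ U) (θ : Circle) (m : ℕ) (hm : 0 < m)
    (hθ : θ ^ m = 1) : ρ (inl (e i y θ)) = 1 := by
  have hc : Continuous fun k : Tor P U ι => (ρ (inl k) : Matrix (Fin n) (Fin n) ℂ).trace :=
    (Units.continuous_val.comp (hρ.comp cont_inl)).matrix_trace
  have htr : ∀ η : Circle, (ρ (inl (e i y η)) : Matrix (Fin n) (Fin n) ℂ).trace = n := by
    intro η
    have h1 : ∀ y' : P ⧸ U, (ρ (inl (e i y' η)) : Matrix (Fin n) (Fin n) ℂ).trace =
        (ρ (inl (e i y η)) : Matrix (Fin n) (Fin n) ℂ).trace := by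
      intro y'
      obtain ⟨p, rfl⟩ := MulAction.exists_smul_eq P y y'
      rw [← act_e, ← conj_inl, map_mul, map_mul, map_inv, Units.val_mul, Units.val_mul,
        Matrix.trace_mul_cycle, Units.inv_mul, one_mul]
    have h2 := (hc.tendsto 1).comp (e_tendsto (P := P) (U := U) i η)
    have h3 : ((fun k : Tor P U ι => (ρ (inl k) : Matrix (Fin n) (Fin n) ℂ).trace) ∘
        fun y : P ⧸ U => e (ι := ι) i y η) =
        fun _ => (ρ (inl (e i y η)) : Matrix (Fin n) (Fin n) ℂ).trace := by
      funext y'
      exact h1 y'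
    rw [h3] at h2
    have h4 := tendsto_nhds_unique h2 tendsto_const_nhds
    rw [map_one, map_one, Units.val_one, Matrix.trace_one, Fintype.card_fin] at h4
    exact h4.symm
  apply Units.ext
  apply eq_one_of_trace _ m hm
  · rw [← Units.val_pow_eq_pow_val, ← map_pow, ← map_pow, e_pow, hθ]
    have h1 : e (P := P) (U := U) (ι := ι) i y 1 = 1 := by
      funext j
      by_cases h : j = (i, y)
      · subst h
        rw [e_same]
        rfl
      · rw [e_ne _ _ _ _ h]
        rfl
    rw [h1, map_one, map_one, Units.val_one]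
  · intro a
    rw [← Units.val_pow_eq_pow_val, ← map_pow, ← map_pow, e_pow]
    exact htr _

theorem rep_e [Infinite (P ⧸ U)] {n : ℕ} (ρ : Wr P U ι →* GL (Fin n) ℂ)
    (hρ : Continuous ρ) (i : ι) (y : P ⧸ U) (θ : Circle) : ρ (inl (e i y θ)) = 1 := by
  classical
  have hce : Continuous fun t : ℝ => e (P := P) (U := U) (ι := ι) i y
      (Circle.exp (2 * Real.pi * t)) := by
    apply continuous_pi
    intro j
    by_cases h : j = (i, y)
    · subst h
      simp only [e_same]
      fun_prop
    · simp only [e_ne _ _ _ _ h]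
      exact continuous_const
  have h1 : Continuous fun t : ℝ => ρ (inl (e i y (Circle.exp (2 * Real.pi * t)))) :=
    hρ.comp (cont_inl.comp hce)
  have h2 : (fun t : ℝ => ρ (inl (e i y (Circle.exp (2 * Real.pi * t))))) = fun _ => 1 := by
    apply Continuous.ext_on (Rat.denseRange_cast (𝕜 := ℝ)) h1 continuous_const
    rintro _ ⟨r, rfl⟩
    apply rep_e_fin ρ hρ i y _ r.den r.den_pos
    rw [← Circle.exp_nsmul]
    have h3 : (r.den • (2 * Real.pi * (r : ℝ)) : ℝ) = (r.num : ℤ) * (2 * Real.pi) := by
      rw [nsmul_eq_mul]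
      have h4 : (r.den : ℝ) * (r : ℝ) = (r.num : ℝ) := by
        exact_mod_cast Rat.den_mul_eq_num r
      calc (r.den : ℝ) * (2 * Real.pi * (r : ℝ)) = ((r.den : ℝ) * (r : ℝ)) * (2 * Real.pi) := by
            ring
        _ = _ := by rw [h4]
    rw [h3]
    exact Circle.exp_int_mul_two_pi _
  obtain ⟨t, ht⟩ := Circle.exp_surjective θ
  have h5 := congrFun h2 (t / (2 * Real.pi))
  have h6 : 2 * Real.pi * (t / (2 * Real.pi)) = t := by
    field_simp
  simp only [h6, ht] at h5
  exact h5

theorem rep_inl [Infinite (P ⧸ U)] {n : ℕ} (ρ : Wr P U ι →* GL (Fin n) ℂ)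
    (hρ : Continuous ρ) (k : Tor P U ι) : ρ (inl k) = 1 := by
  classical
  have h1 : ∀ s : Finset (ι × (P ⧸ U)), ρ (inl (s.piecewise k 1)) = 1 := by
    intro s
    induction s using Finset.induction_on with
    | empty => rw [Finset.piecewise_empty, map_one, map_one]
    | insert j s hj ih =>
      have h2 : (insert j s).piecewise k 1 = e j.1 j.2 (k j) * s.piecewise k 1 := by
        funext l
        rw [Pi.mul_apply]
        by_cases h : l = j
        · subst h
          rw [Finset.piecewise_eq_of_mem _ _ _ (Finset.mem_insert_self _ _),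
            Finset.piecewise_eq_of_notMem _ _ _ hj]
          have h3 := e_same (P := P) (U := U) l.1 l.2 (k l)
          rw [Prod.mk.eta] at h3
          rw [h3]
          simp
        · rw [e_ne _ _ _ _ (by rwa [Prod.mk.eta]), one_mul]
          by_cases h4 : l ∈ s
          · rw [Finset.piecewise_eq_of_mem _ _ _ h4,
              Finset.piecewise_eq_of_mem _ _ _ (Finset.mem_insert_of_mem h4)]
          · rw [Finset.piecewise_eq_of_notMem _ _ _ h4,
              Finset.piecewise_eq_of_notMem _ _ _ (by simp [h, h4])]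
      rw [h2, map_mul, map_mul, rep_e ρ hρ, ih, one_mul]
  have h2 : Tendsto (fun s : Finset (ι × (P ⧸ U)) => s.piecewise k 1) atTop (𝓝 k) := by
    rw [tendsto_pi_nhds]
    intro j
    apply tendsto_const_nhds.congr'
    filter_upwards [eventually_ge_atTop {j}] with s hs
    rw [Finset.piecewise_eq_of_mem _ _ _ (hs (Finset.mem_singleton_self j))]
  have h3 : Tendsto (fun s : Finset (ι × (P ⧸ U)) => ρ (inl (s.piecewise k 1))) atTop
      (𝓝 (ρ (inl k))) := ((hρ.comp cont_inl).tendsto k).comp h2
  have h4 : (fun s : Finset (ι × (P ⧸ U)) => ρ (inl (s.piecewise k 1))) = fun _ => 1 := by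
    funext s
    exact h1 s
  rw [h4] at h3
  exact (tendsto_nhds_unique h3 tendsto_const_nhds)

/-! ### the weight of a set containing the torus -/

theorem card_le (Y : Set (Wr P U ι)) (hY : ∀ k, inl k ∈ Y) [Infinite (P ⧸ U)] [Nonempty ι]
    (B : Set (Set Y)) (hB : TopologicalSpace.IsTopologicalBasis B) :
    Cardinal.mk ι ≤ Cardinal.mk B := by
  classical
  let J : Type u := ι × (P ⧸ U)
  let one : Y := ⟨inl 1, hY 1⟩
  -- a basic set for each coordinate
  have hO : ∀ j : J, ∃ b ∈ B, one ∈ b ∧ b ⊆ {y : Y | (toP y.1).1 j ≠ Circle.exp Real.pi} := by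
    intro j
    have h1 : IsOpen {y : Y | (toP y.1).1 j ≠ Circle.exp Real.pi} := by
      have hc : Continuous fun y : Y => (toP y.1).1 j :=
        (continuous_apply j).comp (cont_toP.comp continuous_subtype_val).fst
      exact isOpen_ne_fun hc continuous_const
    have h2 : one ∈ {y : Y | (toP y.1).1 j ≠ Circle.exp Real.pi} := by
      show (1 : Circle) ≠ Circle.exp Real.pi
      intro h
      have h3 := congrArg (fun z : Circle => (z : ℂ)) h
      simp only [Circle.coe_exp, Circle.coe_one, Complex.exp_pi_mul_I] at h3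
      norm_num at h3
    obtain ⟨b, hb, h3, h4⟩ := hB.exists_subset_of_mem_open h2 h1
    exact ⟨b, hb, h3, h4⟩
  choose b hbB hb1 hb2 using hO
  have hfin : ∀ c : B, {j : J | b j = c.1}.Finite := by
    intro c
    by_cases hne : {j : J | b j = c.1}.Nonempty
    swap
    · rw [Set.not_nonempty_iff_eq_empty] at hne
      rw [hne]
      exact Set.finite_empty
    obtain ⟨j0, hj0⟩ := hne
    have hop : IsOpen c.1 := hB.isOpen c.2
    have hmem : one ∈ c.1 := by
      have h1 := hb1 j0
      rw [hj0] at h1
      exact h1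
    have hcY : Continuous fun k : Tor P U ι => (⟨inl k, hY k⟩ : Y) :=
      cont_inl.subtype_mk _
    have hV : IsOpen {k : Tor P U ι | (⟨inl k, hY k⟩ : Y) ∈ c.1} := hop.preimage hcY
    have h1V : (1 : Tor P U ι) ∈ {k : Tor P U ι | (⟨inl k, hY k⟩ : Y) ∈ c.1} := hmem
    rw [isOpen_pi_iff] at hV
    obtain ⟨I, u, hu, hIu⟩ := hV 1 h1V
    apply (I.finite_toSet).subset
    intro j hj
    by_contra hjI
    have h2 : (e j.1 j.2 (Circle.exp Real.pi) : Tor P U ι) ∈
        {k : Tor P U ι | (⟨inl k, hY k⟩ : Y) ∈ c.1} := by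
      apply hIu
      intro l hl
      have hlj : l ≠ (j.1, j.2) := by
        rintro rfl
        exact hjI hl
      rw [e_ne _ _ _ _ hlj]
      exact (hu l hl).2
    have h3 : (⟨inl (e j.1 j.2 (Circle.exp Real.pi)), hY _⟩ : Y) ∈ b j := by
      rw [hj]
      exact h2
    have h4 := hb2 j h3
    apply h4
    show (e j.1 j.2 (Circle.exp Real.pi) : Tor P U ι) j = Circle.exp Real.pi
    exact e_same j.1 j.2 _
  -- count
  let f : J → B := fun j => ⟨b j, hbB j⟩
  have hf : ∀ c : B, (f ⁻¹' {c}).Finite := by
    intro c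
    apply (hfin c).subset
    intro j hj
    exact congrArg Subtype.val hj
  have hJinf : Infinite J := inferInstance
  have hBinf : Infinite B := by
    by_contra hnot
    rw [not_infinite_iff_finite] at hnot
    have h1 : (Set.univ : Set J).Finite := by
      have h2 : (Set.univ : Set J) = ⋃ c : B, f ⁻¹' {c} := by
        ext j
        simp
      rw [h2]
      exact Set.finite_iUnion hf
    exact Set.infinite_univ h1
  have hle : Cardinal.mk J ≤ Cardinal.mk B := by
    have h1 : ∀ c : B, ∃ g : (f ⁻¹' {c} : Set J) → ℕ, Function.Injective g := by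
      intro c
      have h2 : Countable (f ⁻¹' {c} : Set J) := (hf c).countable.to_subtype
      exact exists_injective_nat _
    choose g hg using h1
    have h3 : Function.Injective fun j : J => (f j, g (f j) ⟨j, rfl⟩) := by
      intro j j' h
      rw [Prod.ext_iff] at h
      obtain ⟨h4, h5⟩ := h
      have h4' : f j = f j' := h4
      have h6 : ∀ (c : B) (hc : f j = c) (hc' : f j' = c),
          g c ⟨j, hc⟩ = g c ⟨j', hc'⟩ → j = j' := by
        intro c hc hc' h7
        exact congrArg Subtype.val (hg c h7)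
      apply h6 (f j) rfl h4'.symm
      have h8 : ∀ (c : B) (hc : f j' = c), g (f j') ⟨j', rfl⟩ = g c ⟨j', hc⟩ := by
        rintro _ rfl
        rfl
      rw [← h8]
      exact h5
    have h7 : Cardinal.mk J ≤ Cardinal.mk (B × ℕ) := Cardinal.mk_le_of_injective h3
    have h9 : Cardinal.mk B * Cardinal.aleph0 = Cardinal.mk B :=
      Cardinal.mul_aleph0_eq (Cardinal.infinite_iff.1 hBinf)
    have h10 : Cardinal.mk (B × ℕ) = Cardinal.mk B := by
      rw [Cardinal.mk_prod]
      simpa using h9
    exact h7.trans h10.le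
  have hιJ : Cardinal.mk ι ≤ Cardinal.mk J := by
    obtain ⟨y⟩ : Nonempty (P ⧸ U) := inferInstance
    exact Cardinal.mk_le_of_injective (f := fun i : ι => ((i, y) : J)) (by
      intro i i' h
      exact (Prod.ext_iff.1 h).1)
  exact hιJ.trans hle

end Wr

end

end Pool.Agent.H85.KW
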