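import Pool.Agent.H85.KW.Inner

/-!
Locally compact groups with a compact space of components: a closed normal subgroup which is
topologically generated by a countable set and has a compact quotient.
-/

namespace Pool.Agent.H85.KW

open Filter Topology
open scoped Pointwise
open Pool.Agent.R557.KO Pool.Agent.R557.KO.KKAux

universe u

set_option linter.unusedSectionVars false

variable {G : Type u} [Group G] [TopologicalSpace G] [IsTopologicalGroup G] [T2Space G]
  [LocallyCompactSpace G]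

/-! ### compact generation -/

/-- If the space of components is compact and the subgroup `H` contains the identity component,
then `G = Q H` for a compact set `Q`. -/
theorem ex_cpt [CompactSpace (ConnectedComponents G)] (H : Subgroup G)
    (hH : connectedComponent (1 : G) ⊆ (H : Set G)) :
    ∃ Q : Set G, IsCompact Q ∧ ∀ g : G, ∃ q ∈ Q, q⁻¹ * g ∈ H := by
  have hcc : ∀ x y : G, connectedComponent x = connectedComponent y → x⁻¹ * y ∈ H := by
    intro x y h0
    have hc : Continuous fun z : G => x⁻¹ * z := by fun_prop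
    have h1 := hc.image_connectedComponent_subset x
    have h2 : x⁻¹ * y ∈ connectedComponent (x⁻¹ * x) :=
      h1 ⟨y, by rw [h0]; exact mem_connectedComponent, rfl⟩
    rw [inv_mul_cancel] at h2
    exact hH h2
  let f : ConnectedComponents G → G ⧸ H :=
    Quotient.lift (QuotientGroup.mk : G → G ⧸ H) (fun x y h => QuotientGroup.eq.2 (hcc x y h))
  have hf : Continuous f := Continuous.quotient_lift QuotientGroup.continuous_mk _
  have hfs : Function.Surjective f := by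
    intro q
    obtain ⟨g, rfl⟩ := QuotientGroup.mk_surjective q
    exact ⟨(g : ConnectedComponents G), rfl⟩
  have hcomp : IsCompact (Set.univ : Set (G ⧸ H)) := by
    rw [← Set.range_eq_univ.2 hfs]
    exact isCompact_range hf
  obtain ⟨W, hW1, hW2⟩ := exists_compact_mem_nhds (1 : G)
  have h1W : (1 : G) ∈ interior W := mem_interior_iff_mem_nhds.2 hW2
  obtain ⟨t, ht⟩ := hcomp.elim_finite_subcover
    (fun g : G => (QuotientGroup.mk : G → G ⧸ H) '' ((fun x => g * x) '' interior W))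
    (fun g => QuotientGroup.isOpenMap_coe _ ((isOpenMap_mul_left g) _ isOpen_interior))
    (by
      intro q _
      obtain ⟨g, rfl⟩ := QuotientGroup.mk_surjective q
      rw [Set.mem_iUnion]
      exact ⟨g, g, ⟨1, h1W, mul_one g⟩, rfl⟩)
  refine ⟨⋃ g ∈ t, (fun x => g * x) '' W, ?_, ?_⟩
  · exact t.isCompact_biUnion fun g _ => hW1.image (by fun_prop)
  · intro g
    have h2 := ht (Set.mem_univ (g : G ⧸ H))
    rw [Set.mem_iUnion₂] at h2
    obtain ⟨x, hx, _, ⟨w, hw, rfl⟩, hy⟩ := h2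
    refine ⟨x * w, ?_, QuotientGroup.eq.1 hy⟩
    rw [Set.mem_iUnion₂]
    exact ⟨x, hx, w, interior_subset hw, rfl⟩

/-- the subgroup generated by a compact symmetric neighbourhood -/
def gen (W : Nb G) : Subgroup G :=
  { carrier := ⋃ n : ℕ, W.1 ^ n
    mul_mem' := by
      intro a b ha hb
      rw [Set.mem_iUnion] at ha hb ⊢
      obtain ⟨n, hn⟩ := ha
      obtain ⟨m, hm⟩ := hb
      refine ⟨n + m, ?_⟩
      rw [pow_add]
      exact Set.mul_mem_mul hn hm
    one_mem' := by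
      rw [Set.mem_iUnion]
      exact ⟨0, by rw [pow_zero]; rfl⟩
    inv_mem' := by
      intro a ha
      rw [Set.mem_iUnion] at ha ⊢
      obtain ⟨n, hn⟩ := ha
      refine ⟨n, ?_⟩
      have h2 : W.1⁻¹ = W.1 := by
        ext x
        rw [Set.mem_inv]
        constructor
        · intro h
          have := W.2.2.2 _ h
          rwa [inv_inv] at this
        · intro h
          exact W.2.2.2 _ h
      have h3 : (W.1 ^ n)⁻¹ = W.1 ^ n := by
        rw [← inv_pow, h2]
      rw [← h3, Set.mem_inv, inv_inv]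
      exact hn }

theorem mem_gen (W : Nb G) (g : G) : g ∈ gen W ↔ ∃ n : ℕ, g ∈ W.1 ^ n := by
  show g ∈ ⋃ n : ℕ, W.1 ^ n ↔ _
  rw [Set.mem_iUnion]

theorem cc_subset_gen (W : Nb G) : connectedComponent (1 : G) ⊆ (gen W : Set G) := by
  have hsub : W.1 ⊆ (gen W : Set G) := by
    intro x hx
    exact (mem_gen W x).2 ⟨1, by rw [pow_one]; exact hx⟩
  have hopen : IsOpen (gen W : Set G) :=
    (gen W).isOpen_of_mem_nhds (mem_of_superset W.2.2.1 hsub)
  have hclopen : IsClopen (gen W : Set G) := ⟨(gen W).isClosed_of_isOpen hopen, hopen⟩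
  exact hclopen.connectedComponent_subset (gen W).one_mem

theorem exhaust1 [CompactSpace (ConnectedComponents G)] :
    ∃ W : Nb G, ∀ g : G, ∃ n : ℕ, g ∈ W.1 ^ n := by
  obtain ⟨V, -⟩ := ex_nb (G := G) (U := Set.univ) univ_mem
  obtain ⟨Q, hQ, hQ2⟩ := ex_cpt (gen V) (cc_subset_gen V)
  let W : Nb G := ⟨V.1 ∪ (Q ∪ Q⁻¹), V.2.1.union (hQ.union hQ.inv),
    mem_of_superset V.2.2.1 Set.subset_union_left, by
      rintro x (hx | hx | hx)
      · exact Or.inl (V.2.2.2 x hx)
      · exact Or.inr (Or.inr (by rw [Set.mem_inv, inv_inv]; exact hx))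
      · exact Or.inr (Or.inl hx)⟩
  refine ⟨W, fun g => ?_⟩
  obtain ⟨q, hq, hg⟩ := hQ2 g
  obtain ⟨n, hn⟩ := (mem_gen V _).1 hg
  refine ⟨1 + n, ?_⟩
  rw [pow_add, pow_one]
  have h1 : g = q * (q⁻¹ * g) := by group
  rw [h1]
  refine Set.mul_mem_mul (Or.inr (Or.inl hq)) ?_
  exact Set.pow_subset_pow_left (Set.subset_union_left (s := V.1) (t := Q ∪ Q⁻¹)) hn

/-! ### the theorem of Kakutani and Kodaira -/

/-- Kakutani and Kodaira, for compactly generated groups. -/
theorem kk (hW : ∃ W : Nb G, ∀ g : G, ∃ n : ℕ, g ∈ W.1 ^ n) :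
    ∃ (N : Subgroup G) (U : ℕ → Nb G) (e : ℕ → G), N.Normal ∧ IsCompact (N : Set G) ∧
      (∀ n, (U (n + 1)).1 ⊆ (U n).1) ∧
      (∀ n, ∀ a ∈ (U (n + 1)).1, ∀ b ∈ (U (n + 1)).1, a * b ∈ (U n).1) ∧
      (∀ x, x ∈ N ↔ ∀ n, x ∈ (U n).1) ∧ ∀ k g, ∃ n, e n * g ∈ (U k).1 := by
  obtain ⟨W, hW⟩ := hW
  have h1W : (1 : G) ∈ W.1 := mem_of_mem_nhds W.2.2.1
  have hstep : ∀ (n : ℕ) (U : Nb G), ∃ V : Nb G,
      (∀ a ∈ V.1, ∀ b ∈ V.1, a * b ∈ U.1) ∧ ∀ x ∈ W.1 ^ n, ∀ v ∈ V.1, x * v * x⁻¹ ∈ U.1 :=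
    fun n U => ex_step _ (pow_compact W.2.1 n) U
  choose f hf1 hf2 using hstep
  obtain ⟨U, hU⟩ : ∃ U : ℕ → Nb G, ∀ n, U (n + 1) = f n (U n) :=
    ⟨fun n => Nat.rec W (fun n U => f n U) n, fun n => rfl⟩
  have hmul : ∀ n, ∀ a ∈ (U (n + 1)).1, ∀ b ∈ (U (n + 1)).1, a * b ∈ (U n).1 := fun n => by
    rw [hU]; exact hf1 n (U n)
  have hconj : ∀ n, ∀ x ∈ W.1 ^ n, ∀ v ∈ (U (n + 1)).1, x * v * x⁻¹ ∈ (U n).1 := fun n => by
    rw [hU]; exact hf2 n (U n)
  have hone : ∀ n, (1 : G) ∈ (U n).1 := fun n => mem_of_mem_nhds (U n).2.2.1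
  have hdec : ∀ n, (U (n + 1)).1 ⊆ (U n).1 := by
    intro n x hx
    have := hmul n x hx 1 (hone (n + 1))
    rwa [mul_one] at this
  have hanti : ∀ n m, n ≤ m → (U m).1 ⊆ (U n).1 := by
    intro n m h
    induction m, h using Nat.le_induction with
    | base => exact subset_rfl
    | succ m _ ih => exact (hdec m).trans ih
  let N : Subgroup G :=
    { carrier := ⋂ n, (U n).1
      mul_mem' := by
        intro a b ha hb
        rw [Set.mem_iInter] at ha hb ⊢
        intro n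
        exact hmul n a (ha (n + 1)) b (hb (n + 1))
      one_mem' := by
        rw [Set.mem_iInter]
        exact hone
      inv_mem' := by
        intro a ha
        rw [Set.mem_iInter] at ha ⊢
        intro n
        exact (U n).2.2.2 a (ha n) }
  have hN : ∀ x, x ∈ N ↔ ∀ n, x ∈ (U n).1 := fun x => Set.mem_iInter
  have hnorm : N.Normal := by
    constructor
    intro a ha g
    rw [hN] at ha ⊢
    obtain ⟨n, hn⟩ := hW g
    intro m
    have h1 : g ∈ W.1 ^ (max n m) := Set.pow_subset_pow_right h1W (le_max_left n m) hn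
    exact hanti m (max n m) (le_max_right n m) (hconj _ g h1 a (ha (max n m + 1)))
  have hcomp : IsCompact (N : Set G) := by
    have h1 : IsClosed (N : Set G) := isClosed_iInter fun n => (U n).2.1.isClosed
    exact (U 0).2.1.of_isClosed_subset h1 (Set.iInter_subset _ 0)
  have hcov : ∀ p : ℕ × ℕ, ∃ t : Finset G, W.1 ^ p.1 ⊆ ⋃ g ∈ t, (fun x => g * x) ⁻¹' (U p.2).1 :=
    fun p => compact_covered_by_mul_left_translates (pow_compact W.2.1 p.1)
      ⟨1, mem_interior_iff_mem_nhds.2 (U p.2).2.2.1⟩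
  choose t ht using hcov
  have hcount : (⋃ p : ℕ × ℕ, ((t p : Set G) ∪ {1})).Countable :=
    Set.countable_iUnion fun p => ((t p).countable_toSet).union (Set.countable_singleton 1)
  have hne : (⋃ p : ℕ × ℕ, ((t p : Set G) ∪ {1})).Nonempty :=
    ⟨1, Set.mem_iUnion.2 ⟨(0, 0), Or.inr rfl⟩⟩
  obtain ⟨e, he⟩ := hcount.exists_eq_range hne
  refine ⟨N, U, e, hnorm, hcomp, hdec, hmul, hN, ?_⟩
  intro k g
  obtain ⟨m, hm⟩ := hW g
  have h1 := ht (m, k) hm
  rw [Set.mem_iUnion₂] at h1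
  obtain ⟨x, hx, hx2⟩ := h1
  have h2 : x ∈ Set.range e := by
    rw [← he]
    exact Set.mem_iUnion.2 ⟨(m, k), Or.inl hx⟩
  obtain ⟨n, rfl⟩ := h2
  exact ⟨n, hx2⟩

/-- A closed set which meets all the neighbourhoods `g U_k` meets `g N`. -/
theorem meets (N : Subgroup G) (U : ℕ → Nb G) (hdec : ∀ n, (U (n + 1)).1 ⊆ (U n).1)
    (hN : ∀ x, x ∈ N ↔ ∀ n, x ∈ (U n).1) (F : Set G) (hF : IsClosed F) (g : G)
    (h : ∀ k, ∃ s ∈ F, s⁻¹ * g ∈ (U k).1) : ∃ s ∈ F, s⁻¹ * g ∈ N := by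
  let C : ℕ → Set G := fun k => F ∩ {s | s⁻¹ * g ∈ (U k).1}
  have hCclosed : ∀ k, IsClosed (C k) := by
    intro k
    apply hF.inter
    exact (U k).2.1.isClosed.preimage (by fun_prop : Continuous fun s : G => s⁻¹ * g)
  have hC0 : IsCompact (C 0) := by
    have h1 : IsCompact {s : G | s⁻¹ * g ∈ (U 0).1} := by
      have h2 : {s : G | s⁻¹ * g ∈ (U 0).1} = (fun x => g * x⁻¹) '' (U 0).1 := by
        ext s
        constructor
        · intro h
          exact ⟨s⁻¹ * g, h, by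
            show g * (s⁻¹ * g)⁻¹ = s
            rw [mul_inv_rev, inv_inv, mul_inv_cancel_left]⟩
        · rintro ⟨x, hx, rfl⟩
          show (g * x⁻¹)⁻¹ * g ∈ (U 0).1
          rw [mul_inv_rev, inv_inv, inv_mul_cancel_right]
          exact hx
      rw [h2]
      exact (U 0).2.1.image (by fun_prop)
    exact h1.inter_left hF
  obtain ⟨s, hs⟩ := IsCompact.nonempty_iInter_of_sequence_nonempty_isCompact_isClosed C
    (fun k x hx => ⟨hx.1, hdec k hx.2⟩)
    (fun k => by obtain ⟨s, h1, h2⟩ := h k; exact ⟨s, h1, h2⟩) hC0 hCclosed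
  rw [Set.mem_iInter] at hs
  exact ⟨s, (hs 0).1, (hN _).2 fun n => (hs n).2⟩

/-! ### the subgroup -/

/-- the elements that act on `N` as elements of `N` do -/
def innerSub (N : Subgroup G) [N.Normal] : Subgroup G :=
  { carrier := {g | ∃ n : N, ∀ m : N, MulAut.conjNormal g m = n * m * n⁻¹}
    one_mem' := ⟨1, fun m => by simp⟩
    mul_mem' := by
      rintro a b ⟨n, hn1⟩ ⟨n', hn2⟩
      refine ⟨n * n', fun m => ?_⟩
      rw [map_mul, MulAut.mul_apply, hn1, hn2]
      group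
    inv_mem' := by
      rintro a ⟨n, hn1⟩
      refine ⟨n⁻¹, fun m => ?_⟩
      have h1 := hn1 (MulAut.conjNormal a⁻¹ m)
      have h2 : MulAut.conjNormal a (MulAut.conjNormal a⁻¹ m) = m := by
        rw [← MulAut.mul_apply, ← map_mul, mul_inv_cancel, map_one, MulAut.one_apply]
      rw [h2] at h1
      calc MulAut.conjNormal a⁻¹ m =
          n⁻¹ * (n * MulAut.conjNormal a⁻¹ m * n⁻¹) * n⁻¹⁻¹ := by group
        _ = n⁻¹ * m * n⁻¹⁻¹ := by rw [← h1] }

/-- **The structure theorem.** -/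
theorem pos [CompactSpace (ConnectedComponents G)] :
    ∃ N S : Subgroup G, N.Normal ∧ S.Normal ∧ IsCompact (N : Set G) ∧ IsClosed (S : Set G) ∧
      (∀ n ∈ N, ∀ s ∈ S, n * s = s * n) ∧
      (∃ z : ℕ → G, S = (Subgroup.closure (Set.range z)).topologicalClosure) ∧
      CompactSpace (G ⧸ S) ∧ CompactSpace (G ⧸ (N ⊔ S)) ∧
      connectedComponent (1 : G) ⊆ ((N ⊔ S : Subgroup G) : Set G) := by
  obtain ⟨N, U, e, hNn, hNc, hdec, hmul, hN, he⟩ := kk (G := G) exhaust1
  have hNcs : CompactSpace N := isCompact_iff_compactSpace.1 hNc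
  set H : Subgroup G := innerSub N with hH
  have hcH : connectedComponent (1 : G) ⊆ (H : Set G) := by
    intro g hg
    exact inner1 G N g hg
  have hUinv : ∀ k x, x ∈ (U k).1 → x⁻¹ ∈ (U k).1 := fun k x hx => (U k).2.2.2 x hx
  -- a sequence dense in `H` modulo `N`
  have hd : ∀ p : ℕ × ℕ, ∃ d ∈ H, ∀ h ∈ H, e p.1 * h ∈ (U p.2).1 → e p.1 * d ∈ (U p.2).1 := by
    intro p
    by_cases h1 : ∃ h ∈ H, e p.1 * h ∈ (U p.2).1
    · obtain ⟨h, h2, h3⟩ := h1
      exact ⟨h, h2, fun _ _ _ => h3⟩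
    · exact ⟨1, H.one_mem, fun h h2 h3 => absurd ⟨h, h2, h3⟩ h1⟩
  choose d hdH hd2 using hd
  choose a ha using hdH
  let z : ℕ × ℕ → G := fun p => ((a p : N) : G)⁻¹ * d p
  have hzc : ∀ p, ∀ m ∈ N, z p * m = m * z p := by
    intro p m hm
    have h1 := congrArg (Subtype.val) (ha p ⟨m, hm⟩)
    have h2 : d p * m * (d p)⁻¹ = (a p : G) * m * (a p : G)⁻¹ := h1
    show ((a p : N) : G)⁻¹ * d p * m = m * (((a p : N) : G)⁻¹ * d p)
    calc ((a p : N) : G)⁻¹ * d p * m = ((a p : N) : G)⁻¹ * (d p * m * (d p)⁻¹) * d p := by group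
      _ = m * (((a p : N) : G)⁻¹ * d p) := by rw [h2]; group
  -- the generators
  let y : FreeGroup ℕ × (ℕ × ℕ) → G := fun q =>
    FreeGroup.lift e q.1 * z q.2 * (FreeGroup.lift e q.1)⁻¹
  obtain ⟨c, hc⟩ : ∃ c : ℕ → FreeGroup ℕ × (ℕ × ℕ), Function.Surjective c :=
    exists_surjective_nat _
  let x : ℕ → G := fun n => y (c n)
  have hx : ∀ q, y q ∈ Set.range x := by
    intro q
    obtain ⟨n, rfl⟩ := hc q
    exact ⟨n, rfl⟩
  set S : Subgroup G := (Subgroup.closure (Set.range x)).topologicalClosure with hS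
  have hScl : IsClosed (S : Set G) := Subgroup.isClosed_topologicalClosure _
  have hyS : ∀ q, y q ∈ S := fun q =>
    Subgroup.le_topologicalClosure _ (Subgroup.subset_closure (hx q))
  have hzS : ∀ p, z p ∈ S := by
    intro p
    have h1 := hyS (1, p)
    simpa [y] using h1
  have hScent : S ≤ Subgroup.centralizer (N : Set G) := by
    apply Subgroup.topologicalClosure_minimal
    · rw [Subgroup.closure_le]
      rintro _ ⟨k, rfl⟩
      show y (c k) ∈ Subgroup.centralizer (N : Set G)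
      rw [Subgroup.mem_centralizer_iff]
      intro m hm
      set γ : G := FreeGroup.lift e (c k).1 with hγ
      have h1 : γ⁻¹ * m * γ ∈ N := by
        have := hNn.conj_mem m hm γ⁻¹
        simpa using this
      have h2 := hzc (c k).2 _ h1
      show m * (γ * z (c k).2 * γ⁻¹) = γ * z (c k).2 * γ⁻¹ * m
      calc m * (γ * z (c k).2 * γ⁻¹) = γ * ((γ⁻¹ * m * γ) * z (c k).2) * γ⁻¹ := by group
        _ = γ * (z (c k).2 * (γ⁻¹ * m * γ)) * γ⁻¹ := by rw [h2]
        _ = _ := by group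
    · exact Set.isClosed_centralizer (N : Set G)
  have hcomm : ∀ n ∈ N, ∀ s ∈ S, n * s = s * n := fun n hn s hs =>
    (Subgroup.mem_centralizer_iff.1 (hScent hs)) n hn
  have hNU : ∀ k x, x ∈ N → x ∈ (U k).1 := fun k x hx => (hN x).1 hx k
  -- `H ⊆ S N`
  have hHS : ∀ h ∈ H, ∃ s ∈ S, s⁻¹ * h ∈ N := by
    intro h hh
    apply meets N U hdec hN (S : Set G) hScl h
    intro k
    obtain ⟨n, hn⟩ := he (k + 2) h
    refine ⟨z (n, k + 2), hzS _, ?_⟩
    have h1 : e n * d (n, k + 2) ∈ (U (k + 2)).1 := hd2 (n, k + 2) h hh hn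
    have h2 : (e n * d (n, k + 2))⁻¹ * (e n * h) ∈ (U (k + 1)).1 :=
      hmul (k + 1) _ (hUinv _ _ h1) _ hn
    have h3 := hmul k _ (hNU (k + 1) _ (a (n, k + 2)).2) _ h2
    have h4 : (z (n, k + 2))⁻¹ * h = ((a (n, k + 2) : N) : G) *
        ((e n * d (n, k + 2))⁻¹ * (e n * h)) := by
      have h5 := hzc (n, k + 2) _ (a (n, k + 2)).2
      have h6 : d (n, k + 2) = ((a (n, k + 2) : N) : G) * z (n, k + 2) := by
        simp [z]
      rw [← h5] at h6
      rw [h6]
      group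
    rw [h4]
    exact h3
  -- invariance under the countable group
  have hinv : ∀ w : FreeGroup ℕ, ∀ s ∈ S,
      FreeGroup.lift e w * s * (FreeGroup.lift e w)⁻¹ ∈ S := by
    intro w
    have h1 : S ≤ S.comap (MulAut.conj (FreeGroup.lift e w)).toMonoidHom := by
      conv_lhs => rw [hS]
      apply Subgroup.topologicalClosure_minimal
      · rw [Subgroup.closure_le]
        rintro _ ⟨k, rfl⟩
        show FreeGroup.lift e w * y (c k) * (FreeGroup.lift e w)⁻¹ ∈ S
        have h2 : FreeGroup.lift e w * y (c k) * (FreeGroup.lift e w)⁻¹ =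
            y (w * (c k).1, (c k).2) := by
          show _ = FreeGroup.lift e (w * (c k).1) * z (c k).2 *
            (FreeGroup.lift e (w * (c k).1))⁻¹
          rw [map_mul]
          show FreeGroup.lift e w * (FreeGroup.lift e (c k).1 * z (c k).2 *
            (FreeGroup.lift e (c k).1)⁻¹) * (FreeGroup.lift e w)⁻¹ = _
          group
        rw [h2]
        exact hyS _
      · have h3 : Continuous fun s : G => FreeGroup.lift e w * s * (FreeGroup.lift e w)⁻¹ := by
          fun_prop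
        exact hScl.preimage h3
    intro s hs
    exact h1 hs
  have hSn : S.Normal := by
    constructor
    intro s hs g
    have h1 : ∃ t ∈ {t : G | t * s * t⁻¹ ∈ S}, t⁻¹ * g ∈ N := by
      apply meets N U hdec hN {t : G | t * s * t⁻¹ ∈ S}
      · exact hScl.preimage (by fun_prop : Continuous fun t : G => t * s * t⁻¹)
      · intro k
        obtain ⟨n, hn⟩ := he k g
        refine ⟨(e n)⁻¹, ?_, by rw [inv_inv]; exact hn⟩
        have h2 := hinv (FreeGroup.of n)⁻¹ s hs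
        rw [map_inv, FreeGroup.lift_apply_of] at h2
        exact h2
    obtain ⟨t, ht, htg⟩ := h1
    have h2 : g = t * (t⁻¹ * g) := by group
    have h3 := hcomm _ htg s hs
    have h4 : g * s * g⁻¹ = t * s * t⁻¹ := by
      calc g * s * g⁻¹ = t * ((t⁻¹ * g) * s) * (t⁻¹ * g)⁻¹ * t⁻¹ := by group
        _ = t * (s * (t⁻¹ * g)) * (t⁻¹ * g)⁻¹ * t⁻¹ := by rw [h3]
        _ = t * s * t⁻¹ := by group
    rw [h4]
    exact ht
  obtain ⟨Q, hQ, hQ2⟩ := ex_cpt H hcH
  refine ⟨N, S, hNn, hSn, hNc, hScl, hcomm, ⟨x, rfl⟩, ?_, ?_, ?_⟩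
  · constructor
    have h1 : (Set.univ : Set (G ⧸ S)) = (QuotientGroup.mk : G → G ⧸ S) '' (Q * (N : Set G)) := by
      symm
      rw [Set.eq_univ_iff_forall]
      intro q
      obtain ⟨g, rfl⟩ := QuotientGroup.mk_surjective q
      obtain ⟨r, hr, hrg⟩ := hQ2 g
      obtain ⟨s, hs, hsg⟩ := hHS _ hrg
      refine ⟨r * (s⁻¹ * (r⁻¹ * g)), Set.mul_mem_mul hr hsg, ?_⟩
      rw [QuotientGroup.eq]
      have h2 := hcomm _ hsg s hs
      have h3 : (r * (s⁻¹ * (r⁻¹ * g)))⁻¹ * g = s := by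
        have h4 : r⁻¹ * g = (s⁻¹ * (r⁻¹ * g)) * s := by
          rw [h2]
          group
        calc (r * (s⁻¹ * (r⁻¹ * g)))⁻¹ * g = (s⁻¹ * (r⁻¹ * g))⁻¹ * (r⁻¹ * g) := by group
          _ = (s⁻¹ * (r⁻¹ * g))⁻¹ * ((s⁻¹ * (r⁻¹ * g)) * s) := by rw [← h4]
          _ = s := by group
      rw [h3]
      exact hs
    rw [h1]
    exact (hQ.mul hNc).image QuotientGroup.continuous_mk
  · constructor
    have h1 : (Set.univ : Set (G ⧸ (N ⊔ S))) = (QuotientGroup.mk : G → G ⧸ (N ⊔ S)) '' Q := by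
      symm
      rw [Set.eq_univ_iff_forall]
      intro q
      obtain ⟨g, rfl⟩ := QuotientGroup.mk_surjective q
      obtain ⟨r, hr, hrg⟩ := hQ2 g
      obtain ⟨s, hs, hsg⟩ := hHS _ hrg
      refine ⟨r, hr, ?_⟩
      rw [QuotientGroup.eq]
      have h2 : r⁻¹ * g = s * (s⁻¹ * (r⁻¹ * g)) := by group
      rw [h2]
      exact Subgroup.mul_mem _ (Subgroup.mem_sup_right hs) (Subgroup.mem_sup_left hsg)
    rw [h1]
    exact hQ.image QuotientGroup.continuous_mk
  · intro g hg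
    obtain ⟨s, hs, hsg⟩ := hHS _ (hcH hg)
    have h2 : g = s * (s⁻¹ * g) := by group
    rw [h2]
    exact Subgroup.mul_mem _ (Subgroup.mem_sup_right hs) (Subgroup.mem_sup_left hsg)

end Pool.Agent.H85.KW
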