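import Mathlib

/-!
Open subgroups of locally compact groups with a noncompact space of components
(van Dantzig's theorem).
-/

namespace Pool.Agent.H85.KW

open Filter Topology
open scoped Pointwise

universe u

/-- A totally disconnected, noncompact, locally compact Hausdorff group has an open subgroup of
infinite index. -/
theorem exists_open_of_tdlc (Q : Type u) [Group Q] [TopologicalSpace Q] [IsTopologicalGroup Q]
    [T2Space Q] [LocallyCompactSpace Q] [TotallyDisconnectedSpace Q] (hn : ¬ CompactSpace Q) :
    ∃ U : Subgroup Q, IsOpen (U : Set Q) ∧ Infinite (Q ⧸ U) := by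
  obtain ⟨K, hK1, hK2⟩ := exists_compact_mem_nhds (1 : Q)
  have hb := loc_compact_Haus_tot_disc_of_zero_dim (H := Q)
  obtain ⟨B, hB, h1B, hBK⟩ := hb.mem_nhds_iff.1 hK2
  have hBc : IsCompact B := hK1.of_isClosed_subset hB.1 hBK
  have hev : ∀ᶠ g in 𝓝 (1 : Q), ∀ b ∈ B, g * b ∈ B := by
    apply hBc.eventually_forall_of_forall_eventually
    intro b hb
    have hc : ContinuousAt (fun z : Q × Q => z.1 * z.2) (1, b) := continuous_mul.continuousAt
    apply hc
    simpa using hB.2.mem_nhds hb
  have hev' : ∀ᶠ g in 𝓝 (1 : Q), ∀ b ∈ B, g⁻¹ * b ∈ B := by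
    have h1 := continuous_inv.tendsto (1 : Q)
    rw [inv_one] at h1
    exact h1.eventually hev
  let L : Subgroup Q := MulAction.stabilizer Q B
  have hL : (L : Set Q) ∈ 𝓝 (1 : Q) := by
    filter_upwards [hev, hev'] with g hg hg'
    show g • B = B
    apply Set.Subset.antisymm
    · rintro _ ⟨b, hb, rfl⟩
      exact hg b hb
    · intro b hb
      exact ⟨g⁻¹ * b, hg' b hb, by simp⟩
  have hLo : IsOpen (L : Set Q) := L.isOpen_of_mem_nhds hL
  have hLB : (L : Set Q) ⊆ B := by
    intro g hg
    have h : g • B = B := hg
    rw [← h]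
    exact ⟨1, h1B, by simp⟩
  have hLc : IsCompact (L : Set Q) := hBc.of_isClosed_subset (L.isClosed_of_isOpen hLo) hLB
  refine ⟨L, hLo, ?_⟩
  by_contra hinf
  rw [not_infinite_iff_finite] at hinf
  apply hn
  constructor
  have h1 : (Set.univ : Set Q) = ⋃ q : Q ⧸ L, (fun x => Quotient.out q * x) '' (L : Set Q) := by
    symm
    rw [Set.eq_univ_iff_forall]
    intro x
    rw [Set.mem_iUnion]
    refine ⟨(x : Q ⧸ L), (Quotient.out (x : Q ⧸ L))⁻¹ * x, ?_, by simp⟩
    have h2 : ((Quotient.out (x : Q ⧸ L) : Q) : Q ⧸ L) = (x : Q ⧸ L) := Quotient.out_eq _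
    exact QuotientGroup.eq.1 h2
  rw [h1]
  exact isCompact_iUnion fun q => hLc.image (by fun_prop)

/-- A locally compact Hausdorff group with a noncompact space of components has an open subgroup of
infinite index. -/
theorem exists_open (P : Type u) [Group P] [TopologicalSpace P] [IsTopologicalGroup P]
    [T2Space P] [LocallyCompactSpace P] (hn : ¬ CompactSpace (ConnectedComponents P)) :
    ∃ U : Subgroup P, IsOpen (U : Set P) ∧ Infinite (P ⧸ U) := by
  let C : Subgroup P := Subgroup.connectedComponentOfOne P
  have hCc : IsClosed (C : Set P) := isClosed_connectedComponent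
  have hCn : C.Normal := by
    constructor
    intro n hn g
    have hc : Continuous fun x : P => g * x * g⁻¹ := by fun_prop
    have h1 := hc.image_connectedComponent_subset (1 : P)
    have h2 : g * n * g⁻¹ ∈ connectedComponent (g * 1 * g⁻¹) := h1 ⟨n, hn, rfl⟩
    have h3 : g * 1 * g⁻¹ = 1 := by group
    rw [h3] at h2
    exact h2
  have hset : (connectedComponentSetoid P) = QuotientGroup.leftRel C := by
    ext x y
    rw [QuotientGroup.leftRel_apply]
    constructor
    · intro h
      have h0 : connectedComponent x = connectedComponent y := h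
      have hc : Continuous fun z : P => x⁻¹ * z := by fun_prop
      have h1 := hc.image_connectedComponent_subset x
      have h2 : x⁻¹ * y ∈ connectedComponent (x⁻¹ * x) :=
        h1 ⟨y, by rw [h0]; exact mem_connectedComponent, rfl⟩
      rw [inv_mul_cancel] at h2
      exact h2
    · intro h
      have h0 : x⁻¹ * y ∈ connectedComponent (1 : P) := h
      have hc : Continuous fun z : P => x * z := by fun_prop
      have h1 := hc.image_connectedComponent_subset (1 : P)
      have h2 : x * (x⁻¹ * y) ∈ connectedComponent (x * 1) := h1 ⟨_, h0, rfl⟩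
      rw [mul_one, mul_inv_cancel_left] at h2
      exact connectedComponent_eq h2
  have htd : TotallyDisconnectedSpace (P ⧸ C) := by
    have h1 : TotallyDisconnectedSpace (Quotient (connectedComponentSetoid P)) :=
      inferInstanceAs (TotallyDisconnectedSpace (ConnectedComponents P))
    rw [hset] at h1
    exact h1
  have hnc : ¬ CompactSpace (P ⧸ C) := by
    intro h1
    apply hn
    have h2 : CompactSpace (Quotient (QuotientGroup.leftRel C)) := h1
    rw [← hset] at h2
    exact h2
  have : T3Space (P ⧸ C) := inferInstance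
  obtain ⟨U, hU, hinf⟩ := exists_open_of_tdlc (P ⧸ C) hnc
  refine ⟨U.comap (QuotientGroup.mk' C), ?_, ?_⟩
  · exact hU.preimage QuotientGroup.continuous_mk
  · by_contra hfin
    rw [not_infinite_iff_finite] at hfin
    have hsurj : Function.Surjective
        (Quotient.map' (s₁ := QuotientGroup.leftRel (U.comap (QuotientGroup.mk' C)))
          (s₂ := QuotientGroup.leftRel U) (QuotientGroup.mk' C) (by
          intro a b hab
          rw [QuotientGroup.leftRel_apply] at hab ⊢
          rw [Subgroup.mem_comap, map_mul, map_inv] at hab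
          exact hab) : P ⧸ U.comap (QuotientGroup.mk' C) → (P ⧸ C) ⧸ U) := by
      intro q
      induction q using QuotientGroup.induction_on with
      | H z =>
        obtain ⟨p, rfl⟩ := QuotientGroup.mk'_surjective C z
        exact ⟨(p : P ⧸ U.comap (QuotientGroup.mk' C)), rfl⟩
    have := Finite.of_surjective _ hsurj
    exact not_finite ((P ⧸ C) ⧸ U)

end Pool.Agent.H85.KW
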